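import Pool.Agent.W763.PB.Stm

namespace Pool.Agent.W597.PB

open Pool.Agent.W763.PB

theorem r1 : S_R1 := by
  intro k hk
  have hk0 : (0 : ℝ) < k := by linarith
  have hk1 : (1 : ℝ) ≤ k := by linarith
  have ha : k ^ (-2 : ℝ) = 1 / k ^ 2 := by
    rw [Real.rpow_neg hk0.le, one_div]
    congr 1
    exact_mod_cast Real.rpow_natCast k 2
  have hkk : 0 < k ^ 2 - 1 := by nlinarith
  have hpp : ∀ x : ℝ, pp k x = (k ^ 2 - k ^ x) / (k ^ 2 - 1) := by
    intro x
    have hw : k ^ (-(2 - x)) = k ^ x / k ^ 2 := by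
      have : (-(2 - x) : ℝ) = x + (-2) := by ring
      rw [this, Real.rpow_add hk0, ha]
      ring
    unfold pp
    rw [hw, ha]
    have h1 : k ^ 2 ≠ 0 := by positivity
    have h2 : k ^ 2 - 1 ≠ 0 := hkk.ne'
    have h3 : (1 : ℝ) - 1 / k ^ 2 ≠ 0 := by
      have : (1 : ℝ) - 1 / k ^ 2 = (k ^ 2 - 1) / k ^ 2 := by field_simp
      rw [this]
      positivity
    rw [div_eq_div_iff h3 h2]
    field_simp
  have hkap : ∀ x : ℝ, kap k x = k ^ (-(x / 2)) * pp k x := by
    intro x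
    unfold kap pp
    ring
  have hu2 : ∀ x : ℝ, (k ^ (-(x / 2))) ^ 2 = k ^ (-x) := by
    intro x
    rw [← Real.rpow_natCast (k ^ (-(x / 2))) 2, ← Real.rpow_mul hk0.le]
    congr 1
    push_cast
    ring
  have hinv : ∀ x : ℝ, k ^ (-x) = (k ^ x)⁻¹ := fun x => Real.rpow_neg hk0.le x
  have main : ∀ x : ℝ, 0 ≤ x → x ≤ 1 → 0 < kap k x ∧ kap k x ≤ 1 ∧ (kap k x) ^ 2 ≤ k ^ (-x) ∧
      1 - kap k x ≤ k * x ∧ kap k x = k ^ (-(x / 2)) * pp k x ∧
      k * (k ^ (-x) * pp k x - (kap k x) ^ 2) ≤ 1 ∧ 0 ≤ pp k x ∧ pp k x ≤ 1 := by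
    intro x hx0 hx1
    have hy1 : 1 ≤ k ^ x := Real.one_le_rpow hk1 hx0
    have hyk : k ^ x ≤ k := by
      calc k ^ x ≤ k ^ (1 : ℝ) := Real.rpow_le_rpow_of_exponent_le hk1 hx1
        _ = k := Real.rpow_one k
    have hyb : k ^ x ≤ 1 + x * (k - 1) := by
      have h := rpow_one_add_le_one_add_mul_self (s := k - 1) (by linarith) hx0 hx1
      have e : (1 : ℝ) + (k - 1) = k := by ring
      rw [e] at h
      exact h
    have hkk2 : k < k ^ 2 := by nlinarith
    have hp0 : 0 < pp k x := by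
      rw [hpp]
      apply div_pos _ hkk
      linarith
    have hp1 : pp k x ≤ 1 := by
      rw [hpp, div_le_one hkk]
      linarith
    have hq : 1 - pp k x = (k ^ x - 1) / (k ^ 2 - 1) := by
      rw [hpp]
      field_simp
      ring
    have hu0 : 0 < k ^ (-(x / 2)) := Real.rpow_pos_of_pos hk0 _
    have hu1 : k ^ (-(x / 2)) ≤ 1 := Real.rpow_le_one_of_one_le_of_nonpos hk1 (by linarith)
    have hul : 1 - k ^ (-(x / 2)) ≤ x / 2 * (k - 1) := by
      have h1 : k ^ (-(x / 2)) = Real.exp (Real.log k * (-(x / 2))) := Real.rpow_def_of_pos hk0 _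
      have h2 := Real.add_one_le_exp (Real.log k * (-(x / 2)))
      have h3 := Real.log_le_sub_one_of_pos hk0
      have h4 : x / 2 * Real.log k ≤ x / 2 * (k - 1) := mul_le_mul_of_nonneg_left h3 (by linarith)
      rw [h1]
      linarith
    refine ⟨?_, ?_, ?_, ?_, hkap x, ?_, hp0.le, hp1⟩
    · rw [hkap]; positivity
    · rw [hkap]
      calc k ^ (-(x / 2)) * pp k x ≤ 1 * 1 := mul_le_mul hu1 hp1 hp0.le (by norm_num)
        _ = 1 := by ring
    · rw [hkap, mul_pow, hu2]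
      have h1 : (pp k x) ^ 2 ≤ 1 := by
        apply pow_le_one₀ hp0.le hp1
      have h2 : 0 < k ^ (-x) := Real.rpow_pos_of_pos hk0 _
      calc k ^ (-x) * (pp k x) ^ 2 ≤ k ^ (-x) * 1 := mul_le_mul_of_nonneg_left h1 h2.le
        _ = k ^ (-x) := by ring
    · rw [hkap]
      have h1 : 1 - k ^ (-(x / 2)) * pp k x ≤ (1 - k ^ (-(x / 2))) + (1 - pp k x) := by
        nlinarith
      have h2 : 1 - pp k x ≤ x / 2 := by
        rw [hq, div_le_iff₀ hkk]
        have h5 : x * (k - 1) ≤ x / 2 * (k ^ 2 - 1) := by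
          have h6 : 0 ≤ x * (k - 1) ^ 2 := by positivity
          nlinarith
        linarith
      nlinarith
    · rw [hkap, mul_pow, hu2]
      have h2 : 0 < k ^ (-x) := Real.rpow_pos_of_pos hk0 _
      have h3 : k ^ (-x) * (k ^ x - 1) ≤ 1 := by
        rw [hinv, inv_mul_le_iff₀ (by linarith)]
        linarith
      have h4 : k * (k ^ (-x) * pp k x - k ^ (-x) * (pp k x) ^ 2)
          = k * k ^ (-x) * (1 - pp k x) * pp k x := by ring
      rw [h4]
      have h5 : k * k ^ (-x) * (1 - pp k x) ≤ 1 := by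
        rw [hq]
        have h6 : k * k ^ (-x) * ((k ^ x - 1) / (k ^ 2 - 1))
            = k * (k ^ (-x) * (k ^ x - 1)) / (k ^ 2 - 1) := by ring
        rw [h6, div_le_one hkk]
        have h7 : k * (k ^ (-x) * (k ^ x - 1)) ≤ k * 1 := mul_le_mul_of_nonneg_left h3 hk0.le
        nlinarith
      have h8 : 0 ≤ k * k ^ (-x) * (1 - pp k x) := by
        have : 0 ≤ 1 - pp k x := by linarith
        positivity
      calc k * k ^ (-x) * (1 - pp k x) * pp k x ≤ 1 * 1 := mul_le_mul h5 hp1 hp0.le (by norm_num)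
        _ = 1 := by ring
  refine ⟨main, ?_⟩
  have h := (main 1 zero_le_one le_rfl).2.2.1
  rw [Real.rpow_neg_one] at h
  rw [one_div]
  exact h

end Pool.Agent.W597.PB
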